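import Pool.Agent.H548R3.NoAP
import Pool.Agent.H548R3.PAP
import Pool.Agent.H548R3.PConstr
import Pool.Agent.H548R3.Snow

/-!
MP_7b119f_an, Q1 and Q2. There is a metric space `M` all of whose points are isolated such that for
every `p` in `(0, 1]` the Lipschitz free `p`-space over `M` fails the approximation property.

`M` is the union of the levels `N_k × {2^(-k)}` in `E × ℝ`, where `E` is a Banach space without the
approximation property and `N_k` is a maximal `2^(-k)`-separated subset of `E`. The completion of `M`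
contains `E × {0}`, and `(x, t) ↦ x` is a retraction onto it.
-/

set_option autoImplicit false

open Set Filter Topology
open Pool.Agent.H548R3.PFree Pool.Agent.H548R3.NoAP
open Pool.Agent.Helper362.Hap

namespace Pool.Agent.Results.MP_7b119f_an.DiscreteFailsAP

/-- maximal separated sets -/
lemma exists_net (X : Type) [MetricSpace X] (r : ℝ) (hr : 0 < r) :
    ∃ N : Set X, (∀ x ∈ N, ∀ y ∈ N, x ≠ y → r ≤ dist x y) ∧ ∀ x, ∃ y ∈ N, dist x y < r := by
  obtain ⟨N, hN⟩ := zorn_subset {S : Set X | S.Pairwise fun x y => r ≤ dist x y} (by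
    intro c hc hch
    refine ⟨⋃₀ c, ?_, fun s hs => subset_sUnion_of_mem hs⟩
    show (⋃₀ c).Pairwise _
    rw [Set.pairwise_sUnion hch.directedOn]
    exact fun s hs => hc hs)
  have h1 : N.Pairwise fun x y => r ≤ dist x y := hN.prop
  refine ⟨N, fun x hx y hy hxy => h1 hx hy hxy, fun x => ?_⟩
  by_contra hcon
  push Not at hcon
  have h2 : (insert x N).Pairwise fun x y => r ≤ dist x y := by
    intro a ha b hb hab
    rcases ha with rfl | ha <;> rcases hb with rfl | hb
    · exact absurd rfl hab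
    · exact hcon b hb
    · rw [dist_comm]
      exact hcon a ha
    · exact h1 ha hb hab
  have h3 : x ∈ N := hN.le_of_ge (y := insert x N) h2 (subset_insert _ _) (mem_insert _ _)
  have h4 := hcon x h3
  rw [dist_self] at h4
  linarith

/-- the nets -/
noncomputable def net (k : ℕ) : Set E := (exists_net E ((1 / 2 : ℝ) ^ k) (by positivity)).choose

lemma net_sep (k : ℕ) {x y : E} (hx : x ∈ net k) (hy : y ∈ net k) (hxy : x ≠ y) :
    (1 / 2 : ℝ) ^ k ≤ dist x y :=
  (exists_net E ((1 / 2 : ℝ) ^ k) (by positivity)).choose_spec.1 x hx y hy hxy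

lemma net_near (k : ℕ) (x : E) : ∃ y ∈ net k, dist x y < (1 / 2 : ℝ) ^ k :=
  (exists_net E ((1 / 2 : ℝ) ^ k) (by positivity)).choose_spec.2 x

/-- the discrete space -/
def MM : Type := {q : E × ℝ // ∃ k : ℕ, q.1 ∈ net k ∧ q.2 = (1 / 2 : ℝ) ^ k}

noncomputable instance : MetricSpace MM :=
  inferInstanceAs (MetricSpace {q : E × ℝ // ∃ k : ℕ, q.1 ∈ net k ∧ q.2 = (1 / 2 : ℝ) ^ k})

lemma dist_MM (a b : MM) : dist a b = max (dist a.1.1 b.1.1) (dist a.1.2 b.1.2) := rfl

lemma gap {j k : ℕ} (h : j ≠ k) : (1 / 2 : ℝ) ^ (k + 1) ≤ |(1 / 2 : ℝ) ^ j - (1 / 2) ^ k| := by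
  rcases lt_or_gt_of_ne h with h | h
  · have h1 : (1 / 2 : ℝ) ^ k ≤ (1 / 2) ^ (j + 1) :=
      pow_le_pow_of_le_one (by norm_num) (by norm_num) h
    rw [pow_succ] at h1
    have h2 : (0 : ℝ) < (1 / 2) ^ k := by positivity
    rw [pow_succ, abs_of_nonneg (by linarith)]
    linarith
  · have h1 : (1 / 2 : ℝ) ^ j ≤ (1 / 2) ^ (k + 1) :=
      pow_le_pow_of_le_one (by norm_num) (by norm_num) h
    rw [pow_succ] at h1 ⊢
    have h2 : (0 : ℝ) < (1 / 2) ^ k := by positivity
    rw [abs_of_nonpos (by linarith)]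
    linarith

/-- all points are isolated -/
lemma isolated (x : MM) : ∃ r : ℝ, 0 < r ∧ ∀ y : MM, dist y x < r → y = x := by
  obtain ⟨⟨x, t⟩, k, hx, ht⟩ := x
  refine ⟨(1 / 2) ^ (k + 1), by positivity, ?_⟩
  rintro ⟨⟨y, s⟩, j, hy, hs⟩ hd
  replace hd : max (dist y x) (dist s t) < (1 / 2) ^ (k + 1) := hd
  rw [max_lt_iff] at hd
  simp only at hx ht hy hs
  have hjk : j = k := by
    by_contra hne
    have h1 := gap hne
    rw [← hs, ← ht] at h1
    rw [Real.dist_eq] at hd
    linarith [hd.2]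
  subst hjk
  have hxy : y = x := by
    by_contra hne
    have h1 := net_sep j hy hx hne
    have h2 : (1 / 2 : ℝ) ^ (j + 1) ≤ (1 / 2) ^ j :=
      pow_le_pow_of_le_one (by norm_num) (by norm_num) (Nat.le_succ j)
    linarith [hd.1]
  subst hxy
  have hts : s = t := by rw [hs, ht]
  subst hts
  rfl

/-- approximating points -/
noncomputable def ap (k : ℕ) (x : E) : MM :=
  ⟨((net_near k x).choose, (1 / 2) ^ k), k, (net_near k x).choose_spec.1, rfl⟩

lemma ap_near (k : ℕ) (x : E) : dist x (ap k x).1.1 < (1 / 2 : ℝ) ^ k :=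
  (net_near k x).choose_spec.2

/-- the base point -/
noncomputable def oo : MM := ap 0 0

lemma ap_dist (k : ℕ) (x y : E) : dist (ap k x) (ap k y) ≤ dist x y + 2 * (1 / 2 : ℝ) ^ k := by
  rw [dist_MM]
  refine max_le ?_ ?_
  · have h1 := dist_triangle4 (ap k x).1.1 x y (ap k y).1.1
    have h2 := ap_near k x
    have h3 := ap_near k y
    rw [dist_comm (ap k x).1.1 x] at h1
    linarith
  · show dist ((1 / 2 : ℝ) ^ k) ((1 / 2) ^ k) ≤ _
    rw [dist_self]
    positivity

lemma ap_dist2 {N k l : ℕ} (hk : N ≤ k) (hl : N ≤ l) (x : E) :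
    dist (ap k x) (ap l x) ≤ 2 * (1 / 2 : ℝ) ^ N := by
  have hk2 : (1 / 2 : ℝ) ^ k ≤ (1 / 2) ^ N := pow_le_pow_of_le_one (by norm_num) (by norm_num) hk
  have hl2 : (1 / 2 : ℝ) ^ l ≤ (1 / 2) ^ N := pow_le_pow_of_le_one (by norm_num) (by norm_num) hl
  rw [dist_MM]
  refine max_le ?_ ?_
  · have h1 := dist_triangle (ap k x).1.1 x (ap l x).1.1
    have h2 := ap_near k x
    have h3 := ap_near l x
    rw [dist_comm (ap k x).1.1 x] at h1
    linarith
  · show dist ((1 / 2 : ℝ) ^ k) ((1 / 2) ^ l) ≤ _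
    rw [Real.dist_eq, abs_sub_le_iff]
    have h1 : (0 : ℝ) < (1 / 2) ^ k := by positivity
    have h2 : (0 : ℝ) < (1 / 2) ^ l := by positivity
    constructor <;> linarith

/-- the space of the test vectors -/
lemma not_hasAP {p : ℝ} (h0 : 0 < p) (h1 : p ≤ 1) (Z : Type) [NormedAddCommGroup Z] [Module ℝ Z]
    (δ : MM → Z) (h : IsLipschitzFree p MM oo Z δ) : ¬ HasAP p Z := by
  have hp : Fact (0 < p ∧ p ≤ 1) := ⟨h0, h1⟩
  have hcompl : CompleteSpace Z := h.banach.2
  -- norms of differences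
  have hnorm : ∀ a b : MM, ‖δ a - δ b‖ = dist a b ^ p := fun a b => by
    rw [← h.isometric a b, pnorm, ← Real.rpow_mul (norm_nonneg _), one_div_mul_cancel h0.ne',
      Real.rpow_one]
  -- the projection
  obtain ⟨β, hβ, -⟩ := h.lift (Snow p E) (isPBanach_snow p E)
    (fun q => toSnow (q.1.1 - oo.1.1)) (by
      show toSnow (oo.1.1 - oo.1.1) = 0
      rw [sub_self]
      rfl)
    ⟨1, fun x y => by
      rw [pnorm_snow, one_mul]
      show ‖(x.1.1 - oo.1.1) - (y.1.1 - oo.1.1)‖ ≤ dist x y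
      rw [sub_sub_sub_cancel_right, ← dist_eq_norm, dist_MM]
      exact le_max_left _ _⟩
  -- the section
  have hpowlim : Tendsto (fun N : ℕ => 2 * (1 / 2 : ℝ) ^ N) atTop (𝓝 0) := by
    have := (tendsto_pow_atTop_nhds_zero_of_lt_one (r := (1 / 2 : ℝ)) (by norm_num)
      (by norm_num)).const_mul 2
    rwa [mul_zero] at this
  have hc : ∀ x : E, CauchySeq fun k => δ (ap k x) := fun x => by
    refine cauchySeq_of_le_tendsto_0 (fun N : ℕ => (2 * (1 / 2 : ℝ) ^ N) ^ p)
      (fun k l N hk hl => ?_) ?_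
    · rw [dist_eq_norm, hnorm]
      exact Real.rpow_le_rpow dist_nonneg (ap_dist2 hk hl x) h0.le
    · have h2 := hpowlim.rpow_const (p := p) (Or.inr h0.le)
      rwa [Real.zero_rpow h0.ne'] at h2
  choose δ' hδ' using fun x => cauchySeq_tendsto_of_complete (hc x)
  refine not_hasAP_of_section (X := E) h0 h.banach.1 (fun x => δ' (x + oo.1.1)) zero_le_one
    (fun x y => ?_) ((snowCLM p E).comp β) (fun x => ?_) (exists_data dat)
  · have h2 : Tendsto (fun k => ‖δ (ap k (x + oo.1.1)) - δ (ap k (y + oo.1.1))‖) atTop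
        (𝓝 ‖δ' (x + oo.1.1) - δ' (y + oo.1.1)‖) := ((hδ' _).sub (hδ' _)).norm
    have h3 : Tendsto (fun k : ℕ => (dist (x + oo.1.1) (y + oo.1.1) + 2 * (1 / 2 : ℝ) ^ k) ^ p) atTop
        (𝓝 ((dist (x + oo.1.1) (y + oo.1.1) + 0) ^ p)) :=
      (hpowlim.const_add _).rpow_const (Or.inr h0.le)
    have h4 := le_of_tendsto_of_tendsto' h2 h3 fun k => by
      rw [hnorm]
      exact Real.rpow_le_rpow dist_nonneg (ap_dist k _ _) h0.le
    rwa [add_zero, dist_add_right, dist_eq_norm, ← one_mul ‖x - y‖] at h4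
  · have h2 : Tendsto (fun k => ofSnow (β (δ (ap k (x + oo.1.1))))) atTop
        (𝓝 (ofSnow (β (δ' (x + oo.1.1))))) :=
      (((snowCLM p E).comp β).continuous.tendsto _).comp (hδ' _)
    have h3 : Tendsto (fun k => ofSnow (β (δ (ap k (x + oo.1.1))))) atTop (𝓝 x) := by
      have h5 : ∀ k, ofSnow (β (δ (ap k (x + oo.1.1)))) = (ap k (x + oo.1.1)).1.1 - oo.1.1 :=
        fun k => by
          rw [hβ]
          rfl
      simp only [h5]
      have h6 : Tendsto (fun k => (ap k (x + oo.1.1)).1.1) atTop (𝓝 (x + oo.1.1)) := by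
        rw [tendsto_iff_dist_tendsto_zero]
        refine squeeze_zero (fun _ => dist_nonneg) (fun k => ?_)
          (tendsto_pow_atTop_nhds_zero_of_lt_one (r := (1 / 2 : ℝ)) (by norm_num) (by norm_num))
        rw [dist_comm]
        exact (ap_near k _).le
      have h7 := h6.sub_const oo.1.1
      rwa [add_sub_cancel_right] at h7
    exact tendsto_nhds_unique h2 h3

/-- **MP_7b119f_an, Q1 and Q2 (negative).** There is a metric space `M` all of whose points are
isolated such that for every `p` in `(0, 1]` the Lipschitz free `p`-space over `M` (which exists)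
fails the approximation property. -/
theorem result : ∃ (M : Type) (_ : MetricSpace M) (o : M),
    (∀ x : M, ∃ r : ℝ, 0 < r ∧ ∀ y : M, dist y x < r → y = x) ∧
    ∀ p : ℝ, 0 < p → p ≤ 1 →
      (∃ (Z : Type) (_ : NormedAddCommGroup Z) (_ : Module ℝ Z) (δ : M → Z),
        IsLipschitzFree p M o Z δ) ∧
      ∀ (Z : Type) [NormedAddCommGroup Z] [Module ℝ Z] (δ : M → Z),
        IsLipschitzFree p M o Z δ → ¬ HasAP p Z := by
  refine ⟨MM, inferInstance, oo, isolated, fun p h0 h1 => ⟨?_, fun Z _ _ δ h =>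
    not_hasAP h0 h1 Z δ h⟩⟩
  have hp : Fact (0 < p ∧ p ≤ 1) := ⟨h0, h1⟩
  exact ⟨FF p MM, inferInstance, inferInstance, fun x => cl x oo, isLipschitzFree oo⟩

end Pool.Agent.Results.MP_7b119f_an.DiscreteFailsAP
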